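import Mathlib

/-! Paths as functions, independent sets, geodesics and adjusters. -/

namespace JO6

open Finset

variable {V : Type} {G : SimpleGraph V}

/-- `f 0, ..., f n` is a path. -/
structure Pth (G : SimpleGraph V) (f : ℕ → V) (n : ℕ) : Prop where
  adj : ∀ i < n, G.Adj (f i) (f (i + 1))
  inj : ∀ a ≤ n, ∀ b ≤ n, f a = f b → a = b

/-- Independent sets. -/
def Ind (G : SimpleGraph V) (I : Finset V) : Prop := ∀ a ∈ I, ∀ b ∈ I, ¬ G.Adj a b

/-- Concatenation. -/
def cat (f : ℕ → V) (n : ℕ) (g : ℕ → V) : ℕ → V := fun i => if i ≤ n then f i else g (i - n - 1)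

lemma cat_le (f : ℕ → V) {n : ℕ} (g : ℕ → V) {i : ℕ} (h : i ≤ n) : cat f n g i = f i := if_pos h

lemma cat_gt (f : ℕ → V) {n : ℕ} (g : ℕ → V) {i j : ℕ} (h : i = n + 1 + j) :
    cat f n g i = g j := by
  rw [cat, if_neg (by omega)]
  congr 1
  omega

lemma cat_cases (f : ℕ → V) (n : ℕ) (g : ℕ → V) (i : ℕ) :
    (i ≤ n ∧ cat f n g i = f i) ∨ ∃ j, i = n + 1 + j ∧ cat f n g i = g j := by
  by_cases h : i ≤ n
  · exact Or.inl ⟨h, cat_le f g h⟩
  · exact Or.inr ⟨i - n - 1, by omega, cat_gt f g (by omega)⟩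

lemma Pth.cat {f g : ℕ → V} {n m : ℕ} (hf : Pth G f n) (hg : Pth G g m) (h : G.Adj (f n) (g 0))
    (hd : ∀ a ≤ n, ∀ b ≤ m, f a ≠ g b) : Pth G (cat f n g) (n + 1 + m) where
  adj i hi := by
    rcases cat_cases f n g i with ⟨h1, h2⟩ | ⟨j, h1, h2⟩
    · rcases h1.lt_or_eq with h3 | rfl
      · rw [h2, cat_le f g (by omega)]
        exact hf.adj i h3
      · rw [h2, cat_gt f g (j := 0) rfl]
        exact h
    · rw [h2, cat_gt f g (j := j + 1) (by omega)]
      exact hg.adj j (by omega)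
  inj a ha b hb e := by
    rcases cat_cases f n g a with ⟨h1, h2⟩ | ⟨j, h1, h2⟩ <;>
      rcases cat_cases f n g b with ⟨h3, h4⟩ | ⟨l, h3, h4⟩ <;> rw [h2, h4] at e
    · exact hf.inj a h1 b h3 e
    · exact absurd e (hd a h1 l (by omega))
    · exact absurd e.symm (hd b h3 j (by omega))
    · have := hg.inj j (by omega) l (by omega) e
      omega

lemma Pth.shift {f : ℕ → V} {n : ℕ} (hf : Pth G f n) {c m : ℕ} (h : c + m ≤ n) :
    Pth G (fun i => f (c + i)) m where
  adj i hi := hf.adj (c + i) (by omega)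
  inj a ha b hb e := by
    have := hf.inj _ (by omega) _ (by omega) e
    omega

lemma pth_const (c : V) : Pth G (fun _ => c) 0 := ⟨by simp, by omega⟩

lemma exists_maxInd (G : SimpleGraph V) (S : Finset V) :
    ∃ I ⊆ S, Ind G I ∧ ∀ J ⊆ S, Ind G J → J.card ≤ I.card := by
  classical
  obtain ⟨I, h1, h2⟩ := exists_max_image (S.powerset.filter (Ind G)) card
    ⟨∅, by simp [Ind]⟩
  rw [mem_filter, mem_powerset] at h1
  exact ⟨I, h1.1, h1.2, fun J h3 h4 => h2 J (mem_filter.2 ⟨mem_powerset.2 h3, h4⟩)⟩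

/-- A set of more than `j a` vertices with independence number at most `a` spans a path with
`j + 1` vertices. -/
lemma exists_path {a : ℕ} (j : ℕ) : ∀ S : Finset V, (∀ I ⊆ S, Ind G I → I.card ≤ a) →
    j * a < S.card → ∃ f, Pth G f j ∧ ∀ i ≤ j, f i ∈ S := by
  classical
  induction j with
  | zero =>
    intro S _ hS
    obtain ⟨c, hc⟩ := card_pos.1 (show 0 < S.card by omega)
    exact ⟨fun _ => c, pth_const c, fun _ _ => hc⟩
  | succ j ih =>
    intro S h hS
    obtain ⟨I, h1, h2, h3⟩ := exists_maxInd G S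
    have h4 := h I h1 h2
    have h5 := le_card_sdiff I S
    obtain ⟨f, hf, hm⟩ := ih (S \ I) (fun J hJ => h J (hJ.trans sdiff_subset))
      (by rw [add_mul] at hS; omega)
    have h6 := mem_sdiff.1 (hm j le_rfl)
    have h7 : ∃ c ∈ I, G.Adj (f j) c := by
      by_contra hc
      push Not at hc
      have := h3 (insert (f j) I) (insert_subset h6.1 h1) (by
        intro u hu w hw
        rcases mem_insert.1 hu with rfl | hu' <;> rcases mem_insert.1 hw with rfl | hw'
        · exact G.irrefl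
        · exact hc w hw'
        · exact fun e => hc u hu' e.symm
        · exact h2 u hu' w hw')
      rw [card_insert_of_notMem h6.2] at this
      omega
    obtain ⟨c, hc, he⟩ := h7
    refine ⟨cat f j fun _ => c, hf.cat (pth_const c) he fun a ha _ _ e =>
      (mem_sdiff.1 (hm a ha)).2 (e ▸ hc), fun i _ => ?_⟩
    rcases cat_cases f j (fun _ => c) i with ⟨h8, h9⟩ | ⟨l, _, h9⟩ <;> rw [h9]
    · exact (mem_sdiff.1 (hm i h8)).1
    · exact h1 hc

/-- Walks of a given length inside `U`. -/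
def Rch (G : SimpleGraph V) (U : V → Prop) (x : V) : ℕ → V → Prop
  | 0, v => v = x
  | n + 1, v => U v ∧ ∃ a, Rch G U x n a ∧ G.Adj a v

/-- Distance layers from `x` inside `U`. -/
structure Geo (G : SimpleGraph V) (U : V → Prop) (x : V) (good : V → Prop) (d : V → ℕ) :
    Prop where
  base : good x
  sub : ∀ a, good a → U a
  step : ∀ a b, good a → U b → G.Adj a b → good b ∧ d b ≤ d a + 1
  path : ∀ w, good w → ∃ f : ℕ → V, f 0 = x ∧ f (d w) = w ∧ Pth G f (d w) ∧
    ∀ i ≤ d w, good (f i) ∧ d (f i) = i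

lemma exists_geo (G : SimpleGraph V) (U : V → Prop) {x : V} (hx : U x) :
    ∃ good d, Geo G U x good d := by
  have hstep : ∀ a b, (∃ n, Rch G U x n a) → U b → G.Adj a b →
      (∃ n, Rch G U x n b) ∧ sInf {n | Rch G U x n b} ≤ sInf {n | Rch G U x n a} + 1 := by
    intro a b ha hb h
    have h1 : Rch G U x (sInf {n | Rch G U x n a} + 1) b := ⟨hb, a, Nat.sInf_mem ha, h⟩
    exact ⟨⟨_, h1⟩, Nat.sInf_le h1⟩
  refine ⟨fun v => ∃ n, Rch G U x n v, fun v => sInf {n | Rch G U x n v}, ⟨0, rfl⟩, ?_, hstep, ?_⟩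
  · rintro a ⟨n, hn⟩
    cases n with
    | zero => exact (show a = x from hn) ▸ hx
    | succ n => exact hn.1
  · intro w hw
    generalize hn : sInf {n | Rch G U x n w} = n
    induction n generalizing w with
    | zero =>
      have h1 : Rch G U x (sInf {n | Rch G U x n w}) w := Nat.sInf_mem hw
      rw [hn] at h1
      have h2 : w = x := h1
      exact ⟨fun _ => w, h2, rfl, pth_const w, fun i hi => ⟨hw, hn.trans (by omega)⟩⟩
    | succ n ih =>
      have h1 : Rch G U x (sInf {n | Rch G U x n w}) w := Nat.sInf_mem hw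
      rw [hn] at h1
      obtain ⟨h2, a, h3, h4⟩ := h1
      have h5 : sInf {n | Rch G U x n a} ≤ n := Nat.sInf_le h3
      have h6 := (hstep a w ⟨n, h3⟩ h2 h4).2
      obtain ⟨f, f0, fn, fp, fd⟩ := ih a ⟨n, h3⟩ (by omega)
      refine ⟨cat f n fun _ => w, by rw [cat_le _ _ (Nat.zero_le _), f0],
        cat_gt _ _ (j := 0) rfl, fp.cat (pth_const w) (fn ▸ h4) fun c hc _ _ e => ?_, ?_⟩
      · have := (fd c hc).2
        rw [e] at this
        omega
      · intro i hi
        rcases cat_cases f n (fun _ => w) i with ⟨h8, h9⟩ | ⟨l, h8, h9⟩ <;> rw [h9]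
        · exact fd i h8
        · exact ⟨hw, by omega⟩

section Geo

variable {U good : V → Prop} {x : V} {d : V → ℕ} {k : ℕ}

lemma Geo.le_two (h : Geo G U x good d) (hα : ∀ I, Ind G I → I.card ≤ k) {w : V}
    (hw : good w) : d w + 1 ≤ 2 * k := by
  classical
  obtain ⟨f, -, -, fp, fd⟩ := h.path w hw
  have h1 := hα ((range (d w / 2 + 1)).image fun i => f (2 * i)) (by
    intro a ha b hb e
    obtain ⟨i, hi, rfl⟩ := mem_image.1 ha
    obtain ⟨j, hj, rfl⟩ := mem_image.1 hb
    rw [mem_range] at hi hj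
    have h2 := fd (2 * i) (by omega)
    have h3 := fd (2 * j) (by omega)
    have h4 := (h.step _ _ h2.1 (h.sub _ h3.1) e).2
    have h5 := (h.step _ _ h3.1 (h.sub _ h2.1) e.symm).2
    obtain rfl : i = j := by omega
    exact G.irrefl e)
  rw [card_image_of_injOn, card_range] at h1
  · omega
  · intro i hi j hj e
    rw [coe_range, Set.mem_Iio] at hi hj
    have := fp.inj _ (by omega) _ (by omega) e
    omega

lemma Geo.blocks (h : Geo G U x good d) (hα : ∀ I, Ind G I → I.card ≤ k) {w : V}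
    (hw : good w) {c y : ℕ}
    (hI : ∀ z, ∃ I, Ind G I ∧ (∀ a ∈ I, U a ∧ G.Adj z a) ∧ c ≤ y * I.card) :
    (d w / 4 + 1) * c ≤ y * k := by
  classical
  obtain ⟨f, -, -, -, fd⟩ := h.path w hw
  choose I I1 I2 I3 using hI
  have key : ∀ i ∈ range (d w / 4 + 1), ∀ a ∈ I (f (4 * i)),
      good a ∧ d a ≤ 4 * i + 1 ∧ 4 * i ≤ d a + 1 := by
    intro i hi a ha
    rw [mem_range] at hi
    have h2 := fd (4 * i) (by omega)
    have h3 := h.step _ _ h2.1 (I2 _ a ha).1 (I2 _ a ha).2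
    have h4 := (h.step _ _ h3.1 (h.sub _ h2.1) (I2 _ a ha).2.symm).2
    exact ⟨h3.1, by omega, by omega⟩
  have h1 := hα ((range (d w / 4 + 1)).biUnion fun i => I (f (4 * i))) (by
    intro a ha b hb e
    obtain ⟨i, hi, ha⟩ := mem_biUnion.1 ha
    obtain ⟨j, hj, hb⟩ := mem_biUnion.1 hb
    have h2 := key i hi a ha
    have h3 := key j hj b hb
    have h4 := (h.step _ _ h2.1 (h.sub _ h3.1) e).2
    have h5 := (h.step _ _ h3.1 (h.sub _ h2.1) e.symm).2
    obtain rfl : i = j := by omega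
    exact I1 _ a ha b hb e)
  rw [card_biUnion] at h1
  · calc (d w / 4 + 1) * c = ∑ _i ∈ range (d w / 4 + 1), c := by simp
      _ ≤ ∑ i ∈ range (d w / 4 + 1), y * (I (f (4 * i))).card := sum_le_sum fun i _ => I3 _
      _ ≤ y * k := by rw [← mul_sum]; exact Nat.mul_le_mul_left y h1
  · intro i hi j hj hij
    refine disjoint_left.2 fun a ha hb => hij ?_
    have h2 := key i hi a ha
    have h3 := key j hj a hb
    omega

end Geo

/-- An adjuster: `x`-`e` paths of all lengths from `lo` to `hi` on `hi + 1` vertices. -/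
structure Aj (G : SimpleGraph V) (F : Finset V) (x e : V) (lo hi : ℕ) : Prop where
  card : F.card = hi + 1
  le : lo ≤ hi
  pth : ∀ l, lo ≤ l → l ≤ hi → ∃ h, Pth G h l ∧ h 0 = x ∧ h l = e ∧ ∀ i ≤ l, h i ∈ F

section Aj

variable {F : Finset V} {x e : V} {lo hi : ℕ}

lemma aj_single (v : V) : Aj G {v} v v 0 0 :=
  ⟨rfl, le_rfl, fun l _ hl => ⟨fun _ => v, by
    obtain rfl : l = 0 := by omega
    exact pth_const v, rfl, rfl, by simp⟩⟩

lemma Aj.ends (h : Aj G F x e lo hi) : x ∈ F ∧ e ∈ F ∧ (0 < hi → x ≠ e) := by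
  obtain ⟨p, h1, h2, h3, h4⟩ := h.pth hi h.le le_rfl
  refine ⟨h2 ▸ h4 0 (Nat.zero_le _), h3 ▸ h4 hi le_rfl, fun h5 h6 => ?_⟩
  have := h1.inj 0 (Nat.zero_le _) hi le_rfl (by rw [h2, h3, h6])
  omega

lemma Aj.fan (h : Aj G F x e lo hi) {q : ℕ → V} {m : ℕ} (hq : Pth G q m)
    (hm : ∀ i ≤ m, q i ∉ F ∧ G.Adj e (q i)) :
    ∃ F', Aj G F' x (q m) (lo + 1) (hi + m + 1) := by
  classical
  refine ⟨F ∪ (range (m + 1)).image q, ?_, by have := h.le; omega, fun l h1 h2 => ?_⟩
  · rw [card_union_of_disjoint, card_image_of_injOn, card_range, h.card]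
    · omega
    · intro i hi j hj e
      rw [coe_range, Set.mem_Iio] at hi hj
      exact hq.inj _ (by omega) _ (by omega) e
    · refine disjoint_right.2 fun a ha => ?_
      obtain ⟨i, hi, rfl⟩ := mem_image.1 ha
      exact (hm i (by rw [mem_range] at hi; omega)).1
  · have h0 := h.le
    obtain ⟨p, p1, p2, p3, p4⟩ := h.pth (min hi (l - 1)) (by omega) (by omega)
    obtain ⟨c, hc, hcm⟩ : ∃ c, l = min hi (l - 1) + 1 + c ∧ c ≤ m :=
      ⟨l - 1 - min hi (l - 1), by omega, by omega⟩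
    generalize min hi (l - 1) = n at *
    subst hc
    refine ⟨cat p n fun i => q (m - c + i), p1.cat (hq.shift (by omega))
      (p3 ▸ (hm _ (by omega)).2) fun a ha b hb e => (hm _ (by omega)).1 (e ▸ p4 a ha),
      by rw [cat_le _ _ (Nat.zero_le _), p2], ?_, fun i hi => ?_⟩
    · rw [cat_gt _ _ (j := c) rfl]
      congr 1
      omega
    · rcases cat_cases p n (fun i => q (m - c + i)) i with ⟨h8, h9⟩ | ⟨j, h8, h9⟩ <;> rw [h9]
      · exact mem_union_left _ (p4 i h8)
      · exact mem_union_right _ (mem_image_of_mem _ (mem_range.2 (by omega)))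

end Aj

end JO6
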