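import Pool.Agent.P.MP_ca32ed_co.Base

/-! Closing, extension and the main theorem. -/

namespace JO6

open Finset

variable {V : Type} {G : SimpleGraph V}

/-- No set of fewer than `K` vertices separates the graph. -/
def Sep (G : SimpleGraph V) (K : ℕ) : Prop :=
  ∀ S : Finset V, S.card < K → ∀ (D : V → Prop) (v : V), v ∉ S → D v →
    (∀ a b, D a → b ∉ S → G.Adj a b → D b) → ∀ u, u ∉ S → D u

/-- A path from `e` to `x` whose interior avoids `F`. -/
structure Ret (G : SimpleGraph V) (F : Finset V) (x e : V) (f : ℕ → V) (r : ℕ) : Prop where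
  pth : Pth G f r
  pos : 0 < r
  f0 : f 0 = e
  fr : f r = x
  out : ∀ i, 0 < i → i < r → f i ∉ F

/-- A cycle with `L` vertices. -/
def HasCyc (G : SimpleGraph V) (L : ℕ) : Prop :=
  ∃ c, Pth G c (L - 1) ∧ G.Adj (c (L - 1)) (c 0)

/-- A path with `y` vertices in a neighbourhood. -/
def HasFan (G : SimpleGraph V) (y : ℕ) : Prop :=
  ∃ v q, Pth G q (y - 1) ∧ ∀ i ≤ y - 1, G.Adj v (q i)

variable {F : Finset V} {x e : V} {lo hi k K r : ℕ} {f : ℕ → V}

lemma Aj.cyc (h : Aj G F x e lo hi) (hr : Ret G F x e f r) {L : ℕ} (h1 : lo + r ≤ L)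
    (h2 : L ≤ hi + r) : HasCyc G L := by
  obtain ⟨p, p1, p2, p3, p4⟩ := h.pth (L - r) (by omega) (by omega)
  have h0 := hr.pos
  by_cases h3 : r = 1
  · subst h3
    refine ⟨p, p1, ?_⟩
    rw [p3, p2, ← hr.f0, ← hr.fr]
    exact hr.pth.adj 0 h0
  · have e1 : L - 1 = L - r + 1 + (r - 2) := by omega
    refine ⟨cat p (L - r) fun i => f (1 + i), ?_, ?_⟩
    · rw [e1]
      refine p1.cat (hr.pth.shift (by omega)) ?_ fun a ha b hb e =>
        hr.out (1 + b) (by omega) (by omega) (e ▸ p4 a ha)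
      rw [p3, ← hr.f0]
      exact hr.pth.adj 0 h0
    · rw [cat_gt _ _ e1, cat_le _ _ (Nat.zero_le _), p2, ← hr.fr]
      have := hr.pth.adj (1 + (r - 2)) (by omega)
      rwa [show 1 + (r - 2) + 1 = r by omega] at this

lemma HasFan.cyc {L : ℕ} (hL : 2 ≤ L) (h : HasFan G (L - 1)) : HasCyc G L := by
  obtain ⟨v, q, h1, h2⟩ := h
  have e1 : L - 1 = L - 1 - 1 + 1 + 0 := by omega
  refine ⟨cat q (L - 1 - 1) fun _ => v, ?_, ?_⟩
  · rw [e1]
    exact h1.cat (pth_const v) (h2 _ le_rfl).symm fun a ha _ _ => (h2 a ha).ne'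
  · rw [cat_gt _ _ e1, cat_le _ _ (Nat.zero_le _)]
    exact h2 0 (Nat.zero_le _)

lemma Ret.ins {i T : ℕ} {g : ℕ → V} (hi : i < r) (f0 : f 0 = e) (fr : f r = x)
    (adj : ∀ a < r, a ≠ i → G.Adj (f a) (f (a + 1)))
    (inj : ∀ a ≤ r, ∀ b ≤ r, f a = f b → a = b) (out : ∀ a, 0 < a → a < r → f a ∉ F)
    (hg : Pth G g T) (g0 : G.Adj (f i) (g 0)) (gT : G.Adj (g T) (f (i + 1)))
    (hd : ∀ a ≤ r, ∀ b ≤ T, f a ≠ g b) (hF : ∀ b ≤ T, g b ∉ F) :
    ∃ f', Ret G F x e f' (r + T + 1) := by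
  have p1 : Pth G f i := ⟨fun a ha => adj a (by omega) (by omega),
    fun a ha b hb => inj a (by omega) b (by omega)⟩
  have p2 : Pth G (fun a => f (i + 1 + a)) (r - i - 1) :=
    ⟨fun a ha => adj (i + 1 + a) (by omega) (by omega), fun a ha b hb e => by
      have := inj _ (by omega) _ (by omega) e
      omega⟩
  have p3 := hg.cat p2 gT fun a ha b hb e => hd _ (by omega) a ha e.symm
  have p4 := p1.cat p3 (by rwa [cat_le _ _ (Nat.zero_le _)]) fun a ha b hb e => by
    rcases cat_cases g T (fun a => f (i + 1 + a)) b with ⟨h8, h9⟩ | ⟨j, h8, h9⟩ <;> rw [h9] at e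
    · exact hd a (by omega) b h8 e
    · have := inj _ (by omega) _ (by omega) e
      omega
  have e1 : r + T + 1 = i + 1 + (T + 1 + (r - i - 1)) := by omega
  refine ⟨_, e1 ▸ p4, by omega, by rw [cat_le _ _ (Nat.zero_le _), f0], ?_, fun a h1 h2 => ?_⟩
  · rw [cat_gt _ _ e1, cat_gt _ _ rfl, ← fr]
    congr 1
    omega
  · rcases cat_cases f i (cat g T fun a => f (i + 1 + a)) a with ⟨h6, h7⟩ | ⟨b, h6, h7⟩ <;>
      rw [h7]
    · exact out a h1 (by omega)
    · rcases cat_cases g T (fun a => f (i + 1 + a)) b with ⟨h8, h9⟩ | ⟨j, h8, h9⟩ <;> rw [h9]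
      · exact hF b h8
      · exact out _ (by omega) (by omega)

variable [Fintype V]

open Classical in
lemma Sep.deg (hS : Sep G K) (hn : K < Fintype.card V) (v : V) :
    K ≤ (univ.filter (G.Adj v)).card := by
  by_contra h
  push Not at h
  have h1 := hS _ h (· = v) v (by simp) rfl (by
    rintro a b rfl hb e
    exact absurd (mem_filter.2 ⟨mem_univ _, e⟩) hb)
  have h2 : univ ⊆ insert v (univ.filter (G.Adj v)) := fun u _ => by
    by_cases hu : u ∈ univ.filter (G.Adj v)
    · exact mem_insert_of_mem hu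
    · exact h1 u hu ▸ mem_insert_self _ _
  have h3 := (card_le_card h2).trans (card_insert_le _ _)
  rw [card_univ] at h3
  omega

lemma Aj.build (hα : ∀ I, Ind G I → I.card ≤ k) (hS : Sep G (6 * k))
    (hn : 6 * k < Fintype.card V) (n : ℕ) : ∀ {F : Finset V} {e : V} {lo hi : ℕ},
    Aj G F x e lo hi → hi + n ≤ 3 * k →
      ∃ F' e' lo', Aj G F' x e' lo' (hi + n) ∧ 4 * lo' ≤ 4 * lo + n + 3 := by
  classical
  induction n using Nat.strong_induction_on with
  | _ n ih =>
    intro F e lo hi h h1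
    rcases n.eq_zero_or_pos with rfl | h0
    · exact ⟨F, e, lo, h, by omega⟩
    have h2 := hS.deg hn e
    have h3 := le_card_sdiff (F.erase e) (univ.filter (G.Adj e))
    rw [card_erase_of_mem h.ends.2.1, h.card] at h3
    have h4 : min 3 (n - 1) * k ≤ 3 * k := Nat.mul_le_mul_right k (min_le_left _ _)
    obtain ⟨q, q1, q2⟩ := exists_path (G := G) (a := k) (min 3 (n - 1))
      (univ.filter (G.Adj e) \ F.erase e) (fun I _ => hα I) (by omega)
    obtain ⟨F', hF⟩ := h.fan q1 fun i hi => by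
      have h5 := mem_sdiff.1 (q2 i hi)
      have h6 := (mem_filter.1 h5.1).2
      exact ⟨fun h7 => h5.2 (mem_erase.2 ⟨h6.ne', h7⟩), h6⟩
    by_cases h8 : n ≤ 4
    · refine ⟨F', _, _, by rwa [show hi + n = hi + min 3 (n - 1) + 1 by omega], by omega⟩
    · obtain ⟨F2, e2, l2, a1, a2⟩ := ih (n - 4) (by omega) hF (by omega)
      exact ⟨F2, e2, l2, by rwa [show hi + n = hi + min 3 (n - 1) + 1 + (n - 4) by omega],
        by omega⟩

lemma Aj.close (hα : ∀ I, Ind G I → I.card ≤ k) (hS : Sep G K) (hn : K < Fintype.card V)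
    (h : Aj G F x e lo hi) (h0 : 0 < hi) (h1 : hi ≤ K) :
    ∃ f r, Ret G F x e f r ∧ r + 1 ≤ 2 * k ∧
      ∀ y, ¬ HasFan G (y + 1) → (r / 4 + 1) * (K + 1 - hi) ≤ y * k := by
  classical
  obtain ⟨hx, he, hne⟩ := h.ends
  have hc : ((F.erase x).erase e).card = hi - 1 := by
    rw [card_erase_of_mem (mem_erase.2 ⟨(hne h0).symm, he⟩), card_erase_of_mem hx, h.card]
    omega
  obtain ⟨good, d, hg⟩ := exists_geo G (· ∉ (F.erase x).erase e) (x := e) (by simp)
  have hgx : good x := hS _ (by omega) good e (by simp) hg.base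
    (fun a b ha hb hab => (hg.step a b ha hb hab).1) x (by simp)
  obtain ⟨f, f0, fr, fp, fd⟩ := hg.path x hgx
  refine ⟨f, d x, ⟨fp, ?_, f0, fr, fun i i1 i2 i3 => ?_⟩, hg.le_two hα hgx, fun y hy => ?_⟩
  · rcases (d x).eq_zero_or_pos with h2 | h2
    · rw [h2, f0] at fr
      exact absurd fr.symm (hne h0)
    · exact h2
  · refine hg.sub _ (fd i i2.le).1 (mem_erase.2 ⟨fun h3 => ?_, mem_erase.2 ⟨fun h3 => ?_, i3⟩⟩)
    · have := fp.inj i i2.le 0 (Nat.zero_le _) (h3.trans f0.symm)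
      omega
    · have := fp.inj i i2.le _ le_rfl (h3.trans fr.symm)
      omega
  · refine hg.blocks hα hgx fun z => ?_
    obtain ⟨I, I1, I2, I3⟩ := exists_maxInd G (univ.filter (G.Adj z) \ (F.erase x).erase e)
    refine ⟨I, I2, fun a ha => ?_, ?_⟩
    · have h5 := mem_sdiff.1 (I1 ha)
      exact ⟨h5.2, (mem_filter.1 h5.1).2⟩
    · by_contra h5
      have h2 := hS.deg hn z
      have h3 := le_card_sdiff ((F.erase x).erase e) (univ.filter (G.Adj z))
      obtain ⟨q, q1, q2⟩ := exists_path (G := G) y _ I3 (by omega)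
      exact hy ⟨z, q, q1, fun i hi => (mem_filter.1 (mem_sdiff.1 (q2 i hi)).1).2⟩

/-- The Chvatal-Erdos extension step. -/
lemma Ret.ext (hα : ∀ I, Ind G I → I.card ≤ k) (hS : Sep G K) (hF : F.card = hi + 1)
    (hx : x ∈ F) (he : e ∈ F) (h : Ret G F x e f r) (h1 : hi + r < Fintype.card V)
    (h2 : hi + k < K) : ∃ f' T, T + 1 ≤ 2 * k ∧ Ret G F x e f' (r + T + 1) := by
  classical
  have h0 := h.pos
  set C := F ∪ (Ioo 0 r).image f with hC
  have hfC : ∀ a ≤ r, f a ∈ C := fun a ha => by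
    rcases a.eq_zero_or_pos with rfl | h3
    · exact mem_union_left _ (h.f0 ▸ he)
    rcases ha.lt_or_eq with h4 | rfl
    · exact mem_union_right _ (mem_image_of_mem _ (mem_Ioo.2 ⟨h3, h4⟩))
    · exact mem_union_left _ (h.fr ▸ hx)
  obtain ⟨v, hv⟩ : ∃ v, v ∉ C := by
    by_contra h3
    push Not at h3
    have h4 := card_le_card (show univ ⊆ C from fun u _ => h3 u)
    have h5 := card_union_le F ((Ioo 0 r).image f)
    have h6 := card_image_le (s := Ioo 0 r) (f := f)
    rw [card_univ] at h4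
    rw [Nat.card_Ioo] at h6
    rw [← hC] at h5
    omega
  let Rl : V → V → Prop := fun a b => a ∉ C ∧ b ∉ C ∧ G.Adj a b
  let D : V → Prop := Relation.ReflTransGen Rl v
  have hD : ∀ u, D u → u ∉ C := fun u hu => by
    induction hu with
    | refl => exact hv
    | tail _ h3 _ => exact h3.2.1
  have link : ∀ u w, D u → D w → ∃ g T, Pth G g T ∧ g 0 = u ∧ g T = w ∧ T + 1 ≤ 2 * k ∧
      ∀ b ≤ T, g b ∉ C := fun u w hu hw => by
    obtain ⟨good, d, hg⟩ := exists_geo G (· ∉ C) (hD u hu)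
    have h3 : Relation.ReflTransGen Rl u w := by
      refine Relation.ReflTransGen.trans ?_ hw
      clear hg
      induction hu with
      | refl => exact .refl
      | tail _ h3 ih => exact .head ⟨h3.2.1, h3.1, h3.2.2.symm⟩ ih
    have h4 : good w := by
      clear hw
      induction h3 with
      | refl => exact hg.base
      | tail _ h3 ih => exact (hg.step _ _ ih h3.2.1 h3.2.2).1
    obtain ⟨g, g0, gT, gp, gd⟩ := hg.path w h4
    exact ⟨g, d w, gp, g0, gT, hg.le_two hα h4, fun b hb => hg.sub _ (gd b hb).1⟩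
  let att : V → Prop := fun c => ∃ u, D u ∧ G.Adj c u
  have main : ∀ i j, i < j → j ≤ r → att (f i) → att (f j) →
      (j = i + 1 ∨ j < r ∧ G.Adj (f (i + 1)) (f (j + 1))) →
      ∃ f' T, T + 1 ≤ 2 * k ∧ Ret G F x e f' (r + T + 1) := by
    rintro i j hij hj ⟨u, hu, hu'⟩ ⟨w, hw, hw'⟩ hh
    obtain ⟨g, T, gp, rfl, rfl, gT, gC⟩ := link u w hu hw
    let ρ : ℕ → ℕ := fun a => if i < a ∧ a ≤ j then i + 1 + j - a else a
    have ρ1 : ∀ a, (i < a ∧ a ≤ j ∧ ρ a = i + 1 + j - a) ∨ ((a ≤ i ∨ j < a) ∧ ρ a = a) :=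
      fun a => by
        by_cases h3 : i < a ∧ a ≤ j
        · exact Or.inl ⟨h3.1, h3.2, if_pos h3⟩
        · exact Or.inr ⟨by omega, if_neg h3⟩
    obtain ⟨f', hf'⟩ := Ret.ins (G := G) (F := F) (x := x) (e := e) (f := fun a => f (ρ a))
      (r := r) (i := i) (by omega) (by
        rw [← h.f0]; congr 1) (by
        rw [← h.fr]; congr 1; have := ρ1 r; omega) (fun a ha hai => by
        have a1 := ρ1 a
        have a2 := ρ1 (a + 1)
        by_cases h3 : a = j
        · subst h3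
          rw [show ρ a = i + 1 by omega, show ρ (a + 1) = a + 1 by omega]
          rcases hh with rfl | hh
          · exact h.pth.adj _ ha
          · exact hh.2
        by_cases h4 : i < a ∧ a < j
        · have := (h.pth.adj (i + j - a) (by omega)).symm
          rwa [show i + j - a + 1 = ρ a by omega, show i + j - a = ρ (a + 1) by omega] at this
        · rw [show ρ a = a by omega, show ρ (a + 1) = a + 1 by omega]
          exact h.pth.adj _ ha) (fun a ha b hb e => by
        have a1 := ρ1 a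
        have a2 := ρ1 b
        have := h.pth.inj _ (by omega) _ (by omega) e
        omega) (fun a a1 a2 => by
        have a3 := ρ1 a
        exact h.out _ (by omega) (by omega)) gp (by
        have := ρ1 i
        rwa [show ρ i = i by omega]) (by
        have := ρ1 (i + 1)
        rw [show ρ (i + 1) = j by omega]
        exact hw'.symm) (fun a ha b hb e => by
        have a3 := ρ1 a
        exact gC b hb (e ▸ hfC _ (by omega))) fun b hb h3 => gC b hb (mem_union_left _ h3)
    exact ⟨f', T, gT, hf'⟩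
  set A := (range r).filter fun i => att (f i) with hA
  by_cases h3 : k < A.card
  · have h4 : ¬ Ind G (A.image fun i => f (i + 1)) := fun h4 => by
      have := hα _ h4
      rw [card_image_of_injOn] at this
      · omega
      · intro a ha b hb e
        have a1 := mem_range.1 (mem_filter.1 (mem_coe.1 ha)).1
        have a2 := mem_range.1 (mem_filter.1 (mem_coe.1 hb)).1
        have := h.pth.inj _ (by omega) _ (by omega) e
        omega
    unfold Ind at h4
    push Not at h4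
    obtain ⟨a, ha, b, hb, hab⟩ := h4
    obtain ⟨i, hi, rfl⟩ := mem_image.1 ha
    obtain ⟨j, hj, rfl⟩ := mem_image.1 hb
    rw [mem_filter, mem_range] at hi hj
    rcases lt_trichotomy i j with h5 | rfl | h5
    · exact main i j h5 hj.1.le hi.2 hj.2 (Or.inr ⟨hj.1, hab⟩)
    · exact absurd hab G.irrefl
    · exact main j i h5 hi.1.le hj.2 hi.2 (Or.inr ⟨hi.1, hab.symm⟩)
  · have h4 : C.filter att ⊆ F.erase e ∪ A.image f := fun c hc => by
      rw [mem_filter] at hc
      by_cases h5 : c = e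
      · subst h5
        exact mem_union_right _ (mem_image.2 ⟨0, mem_filter.2 ⟨mem_range.2 h0, h.f0 ▸ hc.2⟩, h.f0⟩)
      rcases mem_union.1 hc.1 with h6 | h6
      · exact mem_union_left _ (mem_erase.2 ⟨h5, h6⟩)
      · obtain ⟨i, hi, rfl⟩ := mem_image.1 h6
        exact mem_union_right _ (mem_image_of_mem _
          (mem_filter.2 ⟨mem_range.2 (mem_Ioo.1 hi).2, hc.2⟩))
    have h5 := (card_le_card h4).trans (card_union_le _ _)
    have h6 := card_image_le (s := A) (f := f)
    rw [card_erase_of_mem he, hF] at h5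
    have h7 := hS (C.filter att) (by omega) D v (fun h7 => hv (mem_filter.1 h7).1) .refl
      fun a b ha hb hab => by
        by_cases h8 : b ∈ C
        · exact absurd (mem_filter.2 ⟨h8, a, ha, hab.symm⟩) hb
        · exact .tail ha ⟨hD a ha, h8, hab⟩
    have h8 : ∀ a ≤ r, att (f a) := fun a ha => by
      by_contra h9
      exact hD _ (h7 (f a) fun h10 => h9 (mem_filter.1 h10).2) (hfC a ha)
    exact main 0 1 one_pos h0 (h8 0 (by omega)) (h8 1 h0) (Or.inl rfl)

lemma Aj.grow (hα : ∀ I, Ind G I → I.card ≤ k) (hS : Sep G K) (h : Aj G F x e lo hi)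
    (h2 : hi + k < K) (h3 : lo + 2 * k ≤ hi + 1) {L : ℕ} (hL : L ≤ Fintype.card V) (n : ℕ) :
    ∀ f r, Ret G F x e f r → lo + r ≤ L → L ≤ r + n → HasCyc G L := by
  induction n with
  | zero => exact fun f r hr h4 h5 => h.cyc hr h4 (by omega)
  | succ n ih =>
    intro f r hr h4 h5
    by_cases h6 : L ≤ hi + r
    · exact h.cyc hr h4 h6
    · obtain ⟨f', T, h7, h8⟩ := hr.ext hα hS h.card h.ends.1 h.ends.2.1 (by omega) h2
      exact ih f' _ h8 (by omega) (by omega)

lemma arith {k w y b : ℕ} (h1 : y ≤ w) (h3 : 3 * w + y + 8 ≤ 8 * k)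
    (h4 : 3 * w + y + 8 ≤ 16 * b) (h5 : b * (6 * k - w) ≤ y * k) : False := by
  obtain ⟨u, hu⟩ : ∃ u, 6 * k = w + u := ⟨6 * k - w, by omega⟩
  rw [show 6 * k - w = u by omega] at h5
  have h6 : (3 * w + y + 8) * u ≤ 16 * (y * k) :=
    (Nat.mul_le_mul_right u h4).trans (by rw [mul_assoc]; omega)
  by_cases h7 : w ≤ 2 * k
  · nlinarith [Nat.mul_le_mul (show 4 * y + 8 ≤ 3 * w + y + 8 by omega) (show 4 * k ≤ u by omega)]
  · zify at *
    have h8 : (u : ℤ) = 6 * k - w := by linarith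
    rw [h8] at h6
    nlinarith [mul_nonneg (show (0 : ℤ) ≤ 8 * k - 3 * w - y by linarith)
      (show (0 : ℤ) ≤ 10 * k + w by positivity), mul_nonneg (show (0 : ℤ) ≤ k by positivity)
      (show (0 : ℤ) ≤ w - 2 * k by linarith)]

theorem hasCyc (hα : ∀ I, Ind G I → I.card ≤ k) (hS : Sep G (6 * k))
    (hn : 6 * k < Fintype.card V) {L : ℕ} (h3 : 3 ≤ L) (hL : L ≤ Fintype.card V) :
    HasCyc G L := by
  classical
  obtain ⟨v⟩ : Nonempty V := Fintype.card_pos_iff.1 (by omega)
  have hk : 1 ≤ k := by simpa using hα {v} (by simp [Ind])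
  by_cases h1 : 3 * k + 2 ≤ L
  · obtain ⟨F, e, lo, a1, a2⟩ := Aj.build hα hS hn (3 * k) (aj_single v) (by omega)
    obtain ⟨f, r, r1, r2, -⟩ := a1.close hα hS hn (by omega) (by omega)
    exact a1.grow hα hS (by omega) (by omega) hL L f r r1 (by omega) (by omega)
  by_contra hc
  have h4 : HasFan G 1 := by
    obtain ⟨u, hu⟩ := card_pos.1 (show 0 < (univ.filter (G.Adj v)).card by
      have := hS.deg hn v; omega)
    exact ⟨v, fun _ => u, pth_const u, fun _ _ => (mem_filter.1 hu).2⟩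
  have h5 : ¬ HasFan G (L - 1) := fun h => hc (h.cyc (by omega))
  obtain ⟨y, y1, y2, ⟨z, q, q1, q2⟩, y4⟩ :
      ∃ y, 1 ≤ y ∧ y < L - 1 ∧ HasFan G y ∧ ¬ HasFan G (y + 1) := by
    by_contra h6
    push Not at h6
    have : ∀ y, 1 ≤ y → y ≤ L - 1 → HasFan G y := fun y hy => by
      induction y, hy using Nat.le_induction with
      | base => exact fun _ => h4
      | succ y hy ih => exact fun h7 => h6 y hy (by omega) (ih (by omega))
    exact h5 (this _ (by omega) le_rfl)
  obtain ⟨F0, a0⟩ := (aj_single z).fan q1 fun i hi =>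
    ⟨fun h => (q2 i hi).ne' (mem_singleton.1 h), q2 i hi⟩
  obtain ⟨F, e, lo, a1, a2⟩ := Aj.build hα hS hn (L - 1 - y) a0 (by omega)
  obtain ⟨f, r, r1, r2, r3⟩ := a1.close hα hS hn (by omega) (by omega)
  have r0 := r1.pos
  refine hc (a1.cyc r1 ?_ (by omega))
  by_contra h6
  have h7 := r3 y y4
  rw [show 6 * k + 1 - (0 + (y - 1) + 1 + (L - 1 - y)) = 6 * k - (L - 2) by omega] at h7
  exact arith (w := L - 2) (by omega) (by omega) (by omega) h7

omit [Fintype V] in
lemma exists_walk (c : ℕ → V) (n : ℕ) (h : ∀ i < n, G.Adj (c i) (c (i + 1))) :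
    ∃ p : G.Walk (c 0) (c n), p.length = n ∧ ∀ i ≤ n, p.getVert i = c i := by
  induction n with
  | zero => exact ⟨.nil, rfl, by simp⟩
  | succ n ih =>
    obtain ⟨p, p1, p2⟩ := ih fun i hi => h i (by omega)
    refine ⟨p.concat (h n (by omega)), by simp [p1], fun i hi => ?_⟩
    rw [SimpleGraph.Walk.concat_eq_append, SimpleGraph.Walk.getVert_append, p1]
    split_ifs with h1
    · exact p2 i h1.le
    · obtain rfl | rfl : i = n ∨ i = n + 1 := by omega
      all_goals simp

omit [Fintype V] in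
lemma HasCyc.walk {L : ℕ} (hL : 3 ≤ L) (h : HasCyc G L) :
    ∃ (u : V) (p : G.Walk u u), p.IsCycle ∧ p.length = L := by
  obtain ⟨c, h1, h2⟩ := h
  obtain ⟨p, p1, p2⟩ := exists_walk c (L - 1) h1.adj
  have hp : p.IsPath := (SimpleGraph.Walk.IsPath.getVert_injOn_iff p).1 fun a ha b hb e => by
    simp only [Set.mem_ofPred_eq, p1] at ha hb
    rw [p2 a ha, p2 b hb] at e
    exact h1.inj a ha b hb e
  refine ⟨_, .cons h2 p, (SimpleGraph.Walk.cons_isCycle_iff p h2).2 ⟨hp, fun h3 => ?_⟩, ?_⟩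
  · have := hp.length_eq_one_of_mem_edges (Sym2.eq_swap ▸ h3)
    omega
  · rw [SimpleGraph.Walk.length_cons, p1]
    omega

omit [Fintype V] in
lemma sep_of_conn (h : ∀ S : Finset V, S.card < K → (G.induce ((↑S : Set V)ᶜ)).Connected) :
    Sep G K := by
  intro S hS D v hv hD hc u hu
  obtain ⟨p⟩ := (h S hS).preconnected ⟨v, hv⟩ ⟨u, hu⟩
  have key : ∀ (a b : ((↑S : Set V)ᶜ : Set V)) (_ : (G.induce ((↑S : Set V)ᶜ)).Walk a b),
      D a → D b := fun a b q => by
    induction q with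
    | nil => exact id
    | @cons a b c hab _ ih => exact fun ha => ih (hc a b ha b.2 hab)
  exact key _ _ p hD

end JO6
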